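import Pool.Agent.H83.Bass9

/-!
# Bass' formula for the `C`-quasi-injective dimension

The definitions used in the statement (`homComplex`, `IsSemidualizing`, `infDeg`, `hinfDeg`,
`IsQuasiInjectiveResolution`, `qid`, `depth`) are in `Pool/Agent/H83/BassDefs.lean`.
-/

open CategoryTheory Pool.Agent.H83.Bass

universe u

/-- **Bass' formula for the `C`-quasi-injective dimension** (full answer to Q1).
For every commutative Noetherian local ring `R`, every semidualizing module `C` and every nonzero
finitely generated module `M` with `qid^C_R M < ∞`, one has `qid^C_R M = depth R`. -/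
theorem Pool.Agent.Results.MP_a1000c_al.BassFormula.result
    (R : Type u) [CommRing R] [IsNoetherianRing R] [IsLocalRing R]
    (C : ModuleCat.{u} R) (hC : IsSemidualizing C)
    (M : ModuleCat.{u} R) [Module.Finite R M] [Nontrivial M]
    (hfin : qid C M < ⊤) : qid C M = depth R :=
  main hC hfin.ne
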